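import Pool.Agent.Helper3.FewP.Goals3

set_option autoImplicit false

namespace Pool.Agent.Helper43.FewP.TOT

open Pool.Agent.Helper3.FewP
open scoped BigOperators

/-- the exponents determine a bounded range of `s`. -/
theorem mem_of_ee {k r : ℕ} (hk : r < k) {s : ℤ} {q : ℕ} (h : ee k r s = q) :
    -(q : ℤ) - 1 ≤ s ∧ s ≤ q + 1 := by
  have h2 : 2 * (s * (s - 1) / 2) = s * (s - 1) := by
    have : (2 : ℤ) ∣ s * (s - 1) := by
      rcases Int.even_or_odd s with ⟨u, hu⟩ | ⟨u, hu⟩
      · exact ⟨u * (s - 1), by rw [hu]; ring⟩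
      · exact ⟨s * u, by rw [hu]; ring⟩
    exact Int.mul_ediv_cancel' this
  unfold ee at h
  set w := s * (s - 1) / 2 with hw
  have hk' : (r : ℤ) + 1 ≤ k := by exact_mod_cast hk
  have hr0 : (0 : ℤ) ≤ r := by positivity
  have hk1 : (1 : ℤ) ≤ k := by linarith
  constructor
  · by_contra hcon
    push Not at hcon
    -- s < - q - 1
    have hs : s ≤ -2 := by omega
    have hw0 : 0 ≤ w := by nlinarith
    -- r s + k w ≥ (k-1) s + k w
    have h3 : ((k : ℤ) - 1) * s ≤ r * s := by nlinarith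
    have h4 : ((k : ℤ) - 1) * s + k * w ≤ q := by linarith
    have h5 : 2 * (((k : ℤ) - 1) * s) + k * (s * (s - 1)) ≤ 2 * q := by
      have : 2 * ((k : ℤ) * w) = k * (s * (s - 1)) := by rw [← h2]; ring
      linarith
    have h6 : 0 ≤ s * (s + 1) := by nlinarith
    have h7 : 0 ≤ (k : ℤ) * (s * (s + 1)) := mul_nonneg (by linarith) h6
    have h8 : 2 * (((k : ℤ) - 1) * s) + k * (s * (s - 1)) = k * (s * (s + 1)) - 2 * s := by ring
    linarith
  · by_contra hcon
    push Not at hcon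
    have hs : 2 ≤ s := by omega
    have h3 : 0 ≤ (r : ℤ) * s := by positivity
    have hw0 : 0 ≤ w := by nlinarith
    have h4 : (w : ℤ) ≤ k * w := by nlinarith
    have h5 : w ≤ q := by linarith
    nlinarith

theorem ee_nonneg {k r : ℕ} (hk : r < k) (s : ℤ) : 0 ≤ ee k r s := by
  have h2 : 2 * (s * (s - 1) / 2) = s * (s - 1) := by
    have : (2 : ℤ) ∣ s * (s - 1) := by
      rcases Int.even_or_odd s with ⟨u, hu⟩ | ⟨u, hu⟩
      · exact ⟨u * (s - 1), by rw [hu]; ring⟩
      · exact ⟨s * u, by rw [hu]; ring⟩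
    exact Int.mul_ediv_cancel' this
  unfold ee
  set w := s * (s - 1) / 2 with hw
  have hk' : (r : ℤ) + 1 ≤ k := by exact_mod_cast hk
  have hr0 : (0 : ℤ) ≤ r := by positivity
  have hk1 : (1 : ℤ) ≤ k := by linarith
  rcases le_or_gt 0 s with hs | hs
  · have hw0 : 0 ≤ w := by
      rcases eq_or_lt_of_le hs with h | h
      · rw [hw, ← h]; norm_num
      · nlinarith
    positivity
  · have hw0 : 0 ≤ w := by nlinarith
    have h3 : ((k : ℤ) - 1) * s ≤ r * s := by nlinarith
    have h5 : 2 * ((k : ℤ) * w) = k * (s * (s - 1)) := by rw [← h2]; ring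
    have h6 : 0 ≤ s * (s + 1) := by nlinarith
    have h7 : 0 ≤ (k : ℤ) * (s * (s + 1)) := mul_nonneg (by linarith) h6
    have h8 : 2 * (((k : ℤ) - 1) * s) + k * (s * (s - 1)) = k * (s * (s + 1)) - 2 * s := by ring
    linarith

theorem coeff_sent {k r : ℕ} (hk : r < k) (h : ℤ → ℤ → ℂ) {q E : ℕ} (hq : q ≤ E) :
    (sent k r h).coeff q = ∑ s ∈ Finset.Icc (-(E : ℤ) - 1) (E + 1),
      if ee k r s = q then h s (r + k * s) else 0 := by
  unfold sent
  rw [PowerSeries.coeff_mk]
  apply Finset.sum_subset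
  · apply Finset.Icc_subset_Icc <;> omega
  · intro s _ hs
    rw [if_neg]
    intro hee
    exact hs (Finset.mem_Icc.2 (mem_of_ee hk hee))

/-- the combined coefficient. -/
noncomputable def cc (k r E1 E : ℕ) (L : PowerSeries ℂ) (s : ℤ) : ℂ :=
  ∑ p ∈ Finset.HasAntidiagonal.antidiagonal (E1 + E), if ee k r s = p.2 then L.coeff p.1 else 0

theorem cc_self {k r E1 E : ℕ} (L : PowerSeries ℂ) {s : ℤ} (h : ee k r s = E) :
    cc k r E1 E L s = L.coeff E1 := by
  unfold cc
  rw [Finset.sum_eq_single (E1, E)]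
  · rw [if_pos h]
  · rintro ⟨p, q⟩ hp hne
    rw [Finset.HasAntidiagonal.mem_antidiagonal] at hp
    rw [if_neg]
    intro h1
    apply hne
    have h2 : (q : ℤ) = E := by rw [← h1, h]
    have h3 : q = E := by exact_mod_cast h2
    simp only at hp h3 ⊢
    rw [h3] at hp ⊢
    rw [Prod.mk.injEq]
    exact ⟨by omega, rfl⟩
  · intro hn
    exfalso
    apply hn
    rw [Finset.HasAntidiagonal.mem_antidiagonal]

theorem coeff_mul_sent {k r : ℕ} (hk : r < k) (h : ℤ → ℤ → ℂ) {E1 E : ℕ} (L : PowerSeries ℂ)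
    (hL : ∀ e, e < E1 → L.coeff e = 0) :
    (L * sent k r h).coeff (E1 + E) = ∑ s ∈ Finset.Icc (-(E : ℤ) - 1) (E + 1),
      cc k r E1 E L s * h s (r + k * s) := by
  rw [PowerSeries.coeff_mul]
  have h1 : ∀ p ∈ Finset.HasAntidiagonal.antidiagonal (E1 + E), L.coeff p.1 * (sent k r h).coeff p.2 =
      ∑ s ∈ Finset.Icc (-(E : ℤ) - 1) (E + 1),
        (if ee k r s = p.2 then L.coeff p.1 else 0) * h s (r + k * s) := by
    intro p hp
    rw [Finset.HasAntidiagonal.mem_antidiagonal] at hp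
    rcases le_or_gt p.2 E with hq | hq
    · rw [coeff_sent hk h hq, Finset.mul_sum]
      apply Finset.sum_congr rfl
      intro s _
      split_ifs <;> simp
    · have : L.coeff p.1 = 0 := hL _ (by omega)
      rw [this]
      simp
  rw [Finset.sum_congr rfl h1, Finset.sum_comm]
  apply Finset.sum_congr rfl
  intro s _
  unfold cc
  rw [Finset.sum_mul]

/-- clearing denominators. -/
theorem exists_ps {ι : Type} [Fintype ι] (lam : ι → EE) : ∃ (n : ℕ) (L : ι → PowerSeries ℂ),
    ∀ i, HahnSeries.ofPowerSeries ℤ ℂ (L i) = HahnSeries.single (n : ℤ) (1 : ℂ) * lam i := by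
  classical
  set n : ℕ := ∑ i, (lam i).order.natAbs with hn
  have hle : ∀ i, 0 ≤ (n : ℤ) + (lam i).order := by
    intro i
    have h1 : (lam i).order.natAbs ≤ n :=
      Finset.single_le_sum (f := fun i => (lam i).order.natAbs) (fun _ _ => Nat.zero_le _)
        (Finset.mem_univ i)
    omega
  refine ⟨n, fun i => PowerSeries.X ^ ((n : ℤ) + (lam i).order).toNat *
    LaurentSeries.powerSeriesPart (lam i), fun i => ?_⟩
  rw [map_mul, HahnSeries.ofPowerSeries_X_pow, Int.toNat_of_nonneg (hle i)]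
  have h2 := LaurentSeries.single_order_mul_powerSeriesPart (lam i)
  conv_rhs => rw [← h2]
  rw [← mul_assoc, HahnSeries.single_mul_single, one_mul]

theorem t (hEXP : G_EXP) : G_TOT := by
  classical
  intro k m χ t z lam hk hχ hz ht htr hrel
  obtain ⟨n, L, hL⟩ := exists_ps lam
  -- the relation for power series
  have hrel2 : ∀ j r : ℕ, r < k → ∑ ab : Mon m, PowerSeries.C ((j : ℂ) ^ (ab.1.2 : ℕ)) *
      (L ab * sent k r fun s n => (χ * t ^ j) ^ s * z ^ n * (n : ℂ) ^ (ab.1.1 : ℕ)) = 0 := by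
    intro j r hr
    apply HahnSeries.ofPowerSeries_injective (Γ := ℤ) (R := ℂ)
    rw [map_zero, map_sum]
    have h1 := hrel j r hr
    have h2 : HahnSeries.single (n : ℤ) (1 : ℂ) * ∑ ab, lam ab * vv k m χ t z j r ab = 0 := by
      rw [h1, mul_zero]
    rw [Finset.mul_sum] at h2
    rw [← h2]
    apply Finset.sum_congr rfl
    intro ab _
    rw [map_mul, map_mul, hL]
    unfold vv thz
    have h3 : HahnSeries.ofPowerSeries ℤ ℂ (PowerSeries.C ((j : ℂ) ^ (ab.1.2 : ℕ))) =
        (j : EE) ^ (ab.1.2 : ℕ) := by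
      rw [map_pow, map_pow, map_natCast, map_natCast]
    rw [h3]
    ring
  by_contra hlam
  -- some coefficient is not zero
  have hex : ∃ e : ℕ, ∃ ab, (L ab).coeff e ≠ 0 := by
    by_contra hcon
    push Not at hcon
    apply hlam
    funext ab
    have h1 : L ab = 0 := by
      ext e
      rw [hcon e ab, map_zero]
    have h2 := hL ab
    rw [h1, map_zero] at h2
    have h3 : (HahnSeries.single (n : ℤ) (1 : ℂ) : EE) ≠ 0 := by
      rw [Ne, HahnSeries.single_eq_zero_iff]
      exact one_ne_zero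
    rcases mul_eq_zero.1 h2.symm with h | h
    · exact absurd h h3
    · exact h
  set E1 := Nat.find hex with hE1
  obtain ⟨ab0, hab0⟩ := Nat.find_spec hex
  have hmin : ∀ ab e, e < E1 → (L ab).coeff e = 0 := by
    intro ab e he
    have := Nat.find_min hex he
    push Not at this
    exact this ab
  -- the polynomial identity
  have key : ∀ r : ℕ, r < k → ∀ s0 : ℤ,
      ∑ ab : Mon m, Polynomial.C (((r + k * s0 : ℤ) : ℂ) ^ (ab.1.1 : ℕ) * (L ab).coeff E1) *
        Polynomial.X ^ (ab.1.2 : ℕ) = 0 := by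
    intro r hr s0
    obtain ⟨E, hE⟩ := Int.eq_ofNat_of_zero_le (ee_nonneg hr s0)
    set p : ℤ → Polynomial ℂ := fun s => Polynomial.C (χ ^ s * z ^ (r + k * s : ℤ)) *
      ∑ ab : Mon m, Polynomial.C (((r + k * s : ℤ) : ℂ) ^ (ab.1.1 : ℕ) * cc k r E1 E (L ab) s) *
        Polynomial.X ^ (ab.1.2 : ℕ) with hp
    have h1 := hEXP (Finset.Icc (-(E : ℤ) - 1) (E + 1)) t p ht htr (by
      intro j
      have h2 := congrArg (fun F : PowerSeries ℂ => F.coeff (E1 + E)) (hrel2 j r hr)
      simp only [map_sum, map_zero] at h2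
      have h3 : ∀ ab : Mon m, (PowerSeries.C ((j : ℂ) ^ (ab.1.2 : ℕ)) *
          (L ab * sent k r fun s n => (χ * t ^ j) ^ s * z ^ n * (n : ℂ) ^ (ab.1.1 : ℕ))).coeff
            (E1 + E) = ∑ s ∈ Finset.Icc (-(E : ℤ) - 1) (E + 1), (j : ℂ) ^ (ab.1.2 : ℕ) *
            (cc k r E1 E (L ab) s * ((χ * t ^ j) ^ s * z ^ (r + k * s : ℤ) *
              ((r + k * s : ℤ) : ℂ) ^ (ab.1.1 : ℕ))) := by
        intro ab
        rw [PowerSeries.coeff_C_mul, coeff_mul_sent hr _ (L ab) (hmin ab), Finset.mul_sum]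
      rw [Finset.sum_congr rfl (fun ab _ => h3 ab), Finset.sum_comm] at h2
      rw [← h2]
      apply Finset.sum_congr rfl
      intro s _
      rw [hp]
      simp only [Polynomial.eval_mul, Polynomial.eval_C, Polynomial.eval_finsetSum,
        Polynomial.eval_pow, Polynomial.eval_X, Finset.mul_sum]
      apply Finset.sum_congr rfl
      intro ab _
      have h4 : (χ * t ^ j) ^ s = χ ^ s * (t ^ s) ^ j := by
        rw [mul_zpow, ← zpow_natCast, ← zpow_natCast, ← zpow_mul, ← zpow_mul, mul_comm (j : ℤ) s]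
      rw [h4]
      ring) s0 (Finset.mem_Icc.2 (mem_of_ee hr hE))
    rw [hp] at h1
    rcases mul_eq_zero.1 h1 with h | h
    · exfalso
      rw [Polynomial.C_eq_zero] at h
      exact (mul_ne_zero (zpow_ne_zero _ hχ) (zpow_ne_zero _ hz)) h
    · rw [← h]
      apply Finset.sum_congr rfl
      intro ab _
      rw [cc_self (L ab) hE]
  -- for all integers
  have key2 : ∀ N : ℤ, ∑ ab : Mon m, Polynomial.C ((N : ℂ) ^ (ab.1.1 : ℕ) * (L ab).coeff E1) *
        Polynomial.X ^ (ab.1.2 : ℕ) = 0 := by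
    intro N
    have hk0 : (0 : ℤ) < k := by exact_mod_cast hk
    have h1 := Int.emod_nonneg N hk0.ne'
    have h2 := Int.emod_lt_of_pos N hk0
    obtain ⟨r, hr⟩ := Int.eq_ofNat_of_zero_le h1
    have h3 : r < k := by
      rw [hr] at h2
      exact_mod_cast h2
    have h4 := key r h3 (N / k)
    have h5 : (r : ℤ) + k * (N / k) = N := by
      have := Int.emod_add_mul_ediv N k
      rw [hr] at this
      exact this
    rw [h5] at h4
    exact h4
  -- extract the coefficient of X^b
  set Q : Polynomial ℂ := ∑ ab : Mon m, if ab.1.2 = ab0.1.2 then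
    Polynomial.C ((L ab).coeff E1) * Polynomial.X ^ (ab.1.1 : ℕ) else 0 with hQ
  have hQ0 : ∀ N : ℤ, Q.eval (N : ℂ) = 0 := by
    intro N
    have h1 := congrArg (fun P : Polynomial ℂ => P.coeff (ab0.1.2 : ℕ)) (key2 N)
    simp only [Polynomial.finsetSum_coeff, Polynomial.coeff_zero, Polynomial.coeff_C_mul,
      Polynomial.coeff_X_pow] at h1
    rw [hQ, Polynomial.eval_finsetSum, ← h1]
    apply Finset.sum_congr rfl
    intro ab _
    by_cases hb : ab.1.2 = ab0.1.2
    · rw [if_pos hb, if_pos (by rw [hb])]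
      simp only [Polynomial.eval_mul, Polynomial.eval_C, Polynomial.eval_pow, Polynomial.eval_X]
      ring
    · rw [if_neg hb, if_neg (by
        intro h
        exact hb (Fin.ext h.symm))]
      simp
  have hQz : Q = 0 := by
    apply Polynomial.eq_zero_of_infinite_isRoot
    apply Set.infinite_of_injective_forall_mem (f := fun N : ℤ => (N : ℂ))
    · exact Int.cast_injective
    · intro N
      exact hQ0 N
  have h6 := congrArg (fun P : Polynomial ℂ => P.coeff (ab0.1.1 : ℕ)) hQz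
  simp only [Polynomial.coeff_zero] at h6
  rw [hQ, Polynomial.finsetSum_coeff, Finset.sum_eq_single ab0] at h6
  · rw [if_pos rfl, Polynomial.coeff_C_mul, Polynomial.coeff_X_pow, if_pos rfl, mul_one] at h6
    exact hab0 h6
  · intro ab _ hne
    by_cases hb : ab.1.2 = ab0.1.2
    · rw [if_pos hb, Polynomial.coeff_C_mul, Polynomial.coeff_X_pow, if_neg, mul_zero]
      intro h
      apply hne
      apply Subtype.ext
      exact Prod.ext (Fin.ext h.symm) hb
    · rw [if_neg hb, Polynomial.coeff_zero]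
  · intro h
    exact absurd (Finset.mem_univ _) h

end Pool.Agent.Helper43.FewP.TOT
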